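import Pool.Agent.Helper3.AG.Iter

/-!
# AG-Chart: the contribution of one chart, sectors, the assembly of the step
-/

open MeasureTheory Real Set Filter Topology

set_option autoImplicit false

namespace Pool.Agent.Helper92.AG

open Pool.Agent.Helper22.AE
open Pool.Agent.Helper92.GC (dt tp Tq uu tt arc dd)
open Pool.Agent.Helper75.TW (m20 m20_nonneg m20_cont_coef)
open Pool.Agent.Helper60.LT (Fr Tf xf yf df vf fr sl Cv Hom)
open Pool.Agent.Helper60.QL (R3 OM lf ln cb Cone Dec20)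
open Pool.Agent.Helper3.QL (cb_ball cb_vol mem_cb)
open Pool.Agent.Helper3.AC

theorem chart {N : ℕ} {K E C₅ C₆ κ P X V B₂ q kn : ℝ} (hK : 1 ≤ K) (hE : 1 ≤ E) (hC₅ : 1 ≤ C₅) (hC₆ : 1 ≤ C₆) (hκ : 1 ≤ κ) (hP : 0 ≤ P)
    (hX : 0 < X) (hV : 0 ≤ V) (hB₂ : 1 ≤ B₂) (hq : 0 ≤ q) (hkn : 0 ≤ kn) {U : ENNReal} {U₃ I : ℕ → ENNReal}
    (hU : U ^ (1 / 10 : ℝ) ≤ ENNReal.ofReal (K * P) * ∑ j ∈ Finset.range N, (ENNReal.ofReal (κ ^ 3) * U₃ j +
      ENNReal.ofReal (V * (E * (2 * (B₂ * X)) ^ 3 * q * kn))) ^ (1 / 10 : ℝ))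
    (hlo : ∀ j ∈ Finset.range N, ENNReal.ofReal X * U₃ j ≤ ENNReal.ofReal C₆ * I j) :
    (ENNReal.ofReal (C₅ * X) * U) ^ (1 / 10 : ℝ) ≤ ENNReal.ofReal (K * (C₅ * C₆) * κ * P) *
      ∑ j ∈ Finset.range N, (I j + ENNReal.ofReal (8 * V * E * B₂ ^ 3 * X ^ 4 * q * kn)) ^ (1 / 10 : ℝ) := by
  have hK0 : 0 < K := by linarith
  have hE0 : 0 < E := by linarith
  have hC₅0 : 0 < C₅ := by linarith
  have hC₆0 : 0 < C₆ := by linarith
  have hκ0 : 0 < κ := by linarith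
  have hB₂0 : 0 < B₂ := by linarith
  obtain ⟨tl, htl⟩ : ∃ tl : ℝ, tl = V * (E * (2 * (B₂ * X)) ^ 3 * q * kn) := ⟨_, rfl⟩
  have htl0 : 0 ≤ tl := by rw [htl]; positivity
  rw [← htl] at hU
  obtain ⟨T, hT⟩ : ∃ T : ℝ, T = 8 * V * E * B₂ ^ 3 * X ^ 4 * q * kn := ⟨_, rfl⟩
  have hT0 : 0 ≤ T := by rw [hT]; positivity
  have hTt : X * tl = T := by rw [hT, htl]; ring
  rw [← hT]
  have b : ∀ j ∈ Finset.range N, ENNReal.ofReal (C₅ * X) * (ENNReal.ofReal (κ ^ 3) * U₃ j + ENNReal.ofReal tl) ≤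
      ENNReal.ofReal (C₅ * C₆ * κ ^ 3) * (I j + ENNReal.ofReal T) := by
    intro j hj
    rw [mul_add, mul_add]
    refine add_le_add ?_ ?_
    · calc ENNReal.ofReal (C₅ * X) * (ENNReal.ofReal (κ ^ 3) * U₃ j)
          = ENNReal.ofReal (C₅ * κ ^ 3) * (ENNReal.ofReal X * U₃ j) := by
            rw [← mul_assoc, ← mul_assoc, ← ENNReal.ofReal_mul (by positivity), ← ENNReal.ofReal_mul (by positivity)]
            congr 2
            ring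
        _ ≤ ENNReal.ofReal (C₅ * κ ^ 3) * (ENNReal.ofReal C₆ * I j) := mul_le_mul' le_rfl (hlo j hj)
        _ = ENNReal.ofReal (C₅ * C₆ * κ ^ 3) * I j := by
            rw [← mul_assoc, ← ENNReal.ofReal_mul (by positivity)]
            congr 2
            ring
    · rw [← ENNReal.ofReal_mul (by positivity), ← ENNReal.ofReal_mul (by positivity)]
      refine ENNReal.ofReal_le_ofReal ?_
      have h2 : 1 ≤ C₆ * κ ^ 3 := one_le_mul_of_one_le_of_one_le hC₆ (one_le_pow₀ hκ)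
      calc C₅ * X * tl = C₅ * T := by rw [mul_assoc, hTt]
        _ ≤ C₅ * ((C₆ * κ ^ 3) * T) := mul_le_mul_of_nonneg_left (le_mul_of_one_le_left hT0 h2) hC₅0.le
        _ = C₅ * C₆ * κ ^ 3 * T := by ring
  have hQ : (C₅ * C₆ * κ ^ 3) ^ (1 / 10 : ℝ) ≤ C₅ * C₆ * κ := by
    have h1 : 1 ≤ C₅ * C₆ := one_le_mul_of_one_le_of_one_le hC₅ hC₆
    have h2 : 1 ≤ C₅ * C₆ * κ := one_le_mul_of_one_le_of_one_le h1 hκ
    have h3 : C₅ * C₆ * κ ^ 3 ≤ (C₅ * C₆ * κ) ^ 10 := by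
      calc C₅ * C₆ * κ ^ 3 ≤ (C₅ * C₆) ^ 3 * κ ^ 3 := by
            refine mul_le_mul_of_nonneg_right ?_ (by positivity)
            exact le_self_pow₀ h1 (by norm_num)
        _ = (C₅ * C₆ * κ) ^ 3 := by ring
        _ ≤ (C₅ * C₆ * κ) ^ 10 := pow_le_pow_right₀ h2 (by norm_num)
    calc (C₅ * C₆ * κ ^ 3) ^ (1 / 10 : ℝ) ≤ ((C₅ * C₆ * κ) ^ 10) ^ (1 / 10 : ℝ) := rpow_le_rpow (by positivity) h3 (by norm_num)
      _ = C₅ * C₆ * κ := by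
          rw [← rpow_natCast, ← rpow_mul (by positivity)]
          norm_num
  calc (ENNReal.ofReal (C₅ * X) * U) ^ (1 / 10 : ℝ) = ENNReal.ofReal (C₅ * X) ^ (1 / 10 : ℝ) * U ^ (1 / 10 : ℝ) :=
        ENNReal.mul_rpow_of_nonneg _ _ (by norm_num)
    _ ≤ ENNReal.ofReal (C₅ * X) ^ (1 / 10 : ℝ) * (ENNReal.ofReal (K * P) * ∑ j ∈ Finset.range N, (ENNReal.ofReal (κ ^ 3) * U₃ j +
          ENNReal.ofReal tl) ^ (1 / 10 : ℝ)) := mul_le_mul' le_rfl hU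
    _ = ENNReal.ofReal (K * P) * ∑ j ∈ Finset.range N, (ENNReal.ofReal (C₅ * X) * (ENNReal.ofReal (κ ^ 3) * U₃ j +
          ENNReal.ofReal tl)) ^ (1 / 10 : ℝ) := by
        simp only [ENNReal.mul_rpow_of_nonneg _ _ (by norm_num : (0 : ℝ) ≤ 1 / 10)]
        rw [← Finset.mul_sum]
        ring
    _ ≤ ENNReal.ofReal (K * P) * ∑ j ∈ Finset.range N, (ENNReal.ofReal (C₅ * C₆ * κ ^ 3) * (I j + ENNReal.ofReal T)) ^ (1 / 10 : ℝ) :=
        mul_le_mul' le_rfl (Finset.sum_le_sum fun j hj => ENNReal.rpow_le_rpow (b j hj) (by norm_num))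
    _ = (ENNReal.ofReal (K * P) * ENNReal.ofReal (C₅ * C₆ * κ ^ 3) ^ (1 / 10 : ℝ)) * ∑ j ∈ Finset.range N, (I j + ENNReal.ofReal T) ^ (1 / 10 : ℝ) := by
        simp only [ENNReal.mul_rpow_of_nonneg _ _ (by norm_num : (0 : ℝ) ≤ 1 / 10)]
        rw [← Finset.mul_sum]
        ring
    _ ≤ _ := by
        refine mul_le_mul' ?_ le_rfl
        rw [ENNReal.ofReal_rpow_of_nonneg (by positivity) (by norm_num), ← ENNReal.ofReal_mul (by positivity)]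
        refine ENNReal.ofReal_le_ofReal ?_
        calc K * P * (C₅ * C₆ * κ ^ 3) ^ (1 / 10 : ℝ) ≤ K * P * (C₅ * C₆ * κ) :=
              mul_le_mul_of_nonneg_left hQ (by positivity)
          _ = K * (C₅ * C₆) * κ * P := by ring

/-- the slopes of a sector -/
private theorem arc_slopeG {S : Finset (ℤ × ℤ)} {N j : ℕ} (hN : 0 < N) {k : ℤ × ℤ} (hk : k ∈ arc 0 S N j) (h2 : |tt 0 k| ≤ 2) :
    |tt 0 k - (12 * ((j : ℝ) + 1 / 2) / N - 6)| ≤ 6 / N := by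
  have hN0 : (0 : ℝ) < N := by exact_mod_cast hN
  unfold arc at hk
  have h := (Finset.mem_filter.1 hk).2
  have hpos : 0 ≤ (N : ℝ) * ((tt 0 k + 6) / 12) := by
    have := (abs_le.1 h2).1
    refine mul_nonneg hN0.le ?_
    linarith
  have h1 := Nat.floor_le hpos
  have h3 := Nat.lt_floor_add_one ((N : ℝ) * ((tt 0 k + 6) / 12))
  rw [h] at h1 h3
  have e1 : (j : ℝ) * 12 / N ≤ tt 0 k + 6 := by
    rw [div_le_iff₀ hN0]
    linarith
  have e2 : tt 0 k + 6 ≤ ((j : ℝ) + 1) * 12 / N := by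
    rw [le_div_iff₀ hN0]
    linarith
  have e3 : 12 * ((j : ℝ) + 1 / 2) / N = (j : ℝ) * 12 / N + 6 / N := by ring
  have e4 : ((j : ℝ) + 1) * 12 / N = (j : ℝ) * 12 / N + 6 / N + 6 / N := by ring
  rw [abs_le]
  constructor
  · linarith
  · linarith

/-- a sector of level `m` and its slope -/
theorem sector {lam H : ℝ} {S : Finset (ℤ × ℤ)} {M m r : ℕ} (hl : 1 ≤ lam) (hH : 0 < H) (hS : Cone H lam S) (hM : 2 ≤ M)
    (hm : 6 / (M : ℝ) ^ m ≤ 1) (hne : (arc 0 S (M ^ m) r).Nonempty) : ∃ t₀ : ℝ, |t₀| ≤ 3 ∧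
      (∀ k ∈ arc 0 S (M ^ m) r, H / lam ≤ uu 0 k ∧ uu 0 k ≤ lam * H ∧ |tt 0 k - t₀| ≤ 6 / (M : ℝ) ^ m) ∧
      ∀ k ∈ arc 0 S (M ^ m) r, 0 < k.1 := by
  have hsub : arc 0 S (M ^ m) r ⊆ S := by
    unfold arc
    exact Finset.filter_subset _ _
  have hMm : 0 < M ^ m := pow_pos (by omega) m
  have hcast : ((M ^ m : ℕ) : ℝ) = (M : ℝ) ^ m := by push_cast; rfl
  have hkpos : ∀ k ∈ S, (0 : ℝ) < k.1 := fun k hk => lt_of_lt_of_le (div_pos hH (by linarith)) (hS k hk).1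
  have huu : ∀ k : ℤ × ℤ, uu 0 k = (k.1 : ℝ) := by
    intro k
    unfold uu
    ring
  have htt : ∀ k ∈ S, |tt 0 k| ≤ 2 := by
    intro k hk
    have h1 := hkpos k hk
    unfold tt
    rw [huu, abs_div, abs_of_pos h1, div_le_iff₀ h1]
    exact (hS k hk).2.2
  have hslope : ∀ k ∈ arc 0 S (M ^ m) r, |tt 0 k - (12 * ((r : ℝ) + 1 / 2) / ((M ^ m : ℕ) : ℝ) - 6)| ≤ 6 / (M : ℝ) ^ m := by
    intro k hk
    rw [← hcast]
    exact arc_slopeG hMm hk (htt k (hsub hk))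
  refine ⟨12 * ((r : ℝ) + 1 / 2) / ((M ^ m : ℕ) : ℝ) - 6, ?_, ?_, ?_⟩
  · obtain ⟨k, hk⟩ := hne
    have h1 := abs_le.1 (hslope k hk)
    have h2 := abs_le.1 (htt k (hsub hk))
    rw [abs_le]
    constructor
    · linarith
    · linarith
  · intro k hk
    have h1 := hS k (hsub hk)
    rw [huu]
    exact ⟨h1.1, h1.2.1, hslope k hk⟩
  · intro k hk
    have := hkpos k (hsub hk)
    exact_mod_cast this

end Pool.Agent.Helper92.AG
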