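import Pool.Agent.Helper3.AG.PStep
import Pool.Agent.Helper92.AG.Defs
import Pool.Agent.Helper60.AC.Meas
import Pool.Agent.Helper78.QL.S1c

/-!
# AG-Iter (block W): the step and the iteration for the class `HG`, from the statements of the other blocks
-/

open MeasureTheory Real Set Filter Topology

set_option autoImplicit false

namespace Pool.Agent.Helper92.AG

open Pool.Agent.Helper22.AE
open Pool.Agent.Helper92.GC (dt tp Tq uu tt arc dd)
open Pool.Agent.Helper75.TW (m20 m20_nonneg m20_cont_coef)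
open Pool.Agent.Helper60.LT (Fr Tf xf yf df vf fr sl Cv Hom)
open Pool.Agent.Helper60.QL (R3 OM lf ln cb Cone Dec20)
open Pool.Agent.Helper3.QL (cb_ball cb_vol mem_cb)
open Pool.Agent.Helper3.AC

/-! ## the statements of the blocks with their constants -/

def Loc1 (c₁ B₀ B κ₀ lam C w₀ : ℝ) : Prop :=
  ∀ h : ℝ × ℝ → ℝ, HG c₁ B₀ h → ∀ s : ℝ, (s = 1 ∨ s = -1) → ∀ θ : ℝ, κ₀ ≤ s * ka h θ → ∀ X t₀ : ℝ, 0 < X →
    LocP (fun S A => qf h θ t₀ S A) (fun A => hf h (fA h θ A)) (OS s B X) X lam C w₀ t₀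

def Loc2 (c₁ B₀ B c r Y e lam C w₀ : ℝ) : Prop :=
  ∀ h : ℝ × ℝ → ℝ, HG c₁ B₀ h → ∀ z σ : ℝ, Gd c r z σ h → ∀ y ∈ Icc (1 / Y) Y, ∀ X t₀ : ℝ, 0 < X →
    LocP (fun S A => qz h z r σ y t₀ S A) (fun A => hf h (fZ h z r σ y A)) (OZ B e X) X lam C w₀ t₀

def Up1 (c₁ B₀ B B' κ₀ C : ℝ) : Prop :=
  ∀ h : ℝ × ℝ → ℝ, HG c₁ B₀ h → ∀ s : ℝ, (s = 1 ∨ s = -1) → ∀ θ : ℝ, κ₀ ≤ s * ka h θ → ∀ (X : ℝ) (F : Fr → ENNReal), 0 < X → Measurable F →
    Rt ((UP B X).indicator F) θ ≤ ENNReal.ofReal (C * X) * ∫⁻ A in OS s B' X, F (fA h θ A)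

def Lo1 (c₁ B₀ B B' κ₀ C : ℝ) : Prop :=
  ∀ h : ℝ × ℝ → ℝ, HG c₁ B₀ h → ∀ s : ℝ, (s = 1 ∨ s = -1) → ∀ θ : ℝ, κ₀ ≤ s * ka h θ → ∀ (X : ℝ) (F : Fr → ENNReal), 0 < X → Measurable F →
    ENNReal.ofReal X * ∫⁻ A in OS s B X, F (fA h θ A) ≤ ENNReal.ofReal C * Rt ((UP B' X).indicator F) θ

def Up2 (c₁ B₀ B B' c r Y e κ₁ C : ℝ) : Prop :=
  ∀ h : ℝ × ℝ → ℝ, HG c₁ B₀ h → ∀ z σ : ℝ, Gd c r z σ h → ∀ (X : ℝ) (F : Fr → ENNReal), 0 < X → Measurable F →
    ∫⁻ θ in {θ | |θ - z| ≤ r ∧ |ka h θ| ≤ κ₁}, Rt ((UP B X).indicator F) θ ≤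
      ENNReal.ofReal (C * X) * ∫⁻ y in Icc (1 / Y) Y, ∫⁻ A in OZ B' e X, F (fZ h z r σ y A)

def Lo2 (c₁ B₀ B B' c r Y e C : ℝ) : Prop :=
  ∀ h : ℝ × ℝ → ℝ, HG c₁ B₀ h → ∀ z σ : ℝ, Gd c r z σ h → ∀ (X : ℝ) (F : Fr → ENNReal), 0 < X → Measurable F →
    ENNReal.ofReal X * ∫⁻ y in Icc (1 / Y) Y, ∫⁻ A in OZ B e X, F (fZ h z r σ y A) ≤ ENNReal.ofReal C * ∫⁻ f in UP B' X, F f

/-! ## sets -/

theorem UP_monoG {B B' X : ℝ} (hX : 0 < X) (h : B ≤ B') : UP B X ⊆ UP B' X := by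
  rintro f ⟨h1, h2, h3, h4, h5⟩
  have hBX : B * X ≤ B' * X := mul_le_mul_of_nonneg_right h hX.le
  have hB : 0 ≤ B := by
    by_contra hcon
    push Not at hcon
    have := (abs_nonneg _).trans h1
    have := mul_neg_of_neg_of_pos hcon hX
    linarith
  have hd : 0 ≤ df f := by
    by_contra hcon
    push Not at hcon
    have := mul_nonpos_of_nonneg_of_nonpos hB hcon.le
    have : 0 < X ^ 2 := by positivity
    linarith
  exact ⟨h1.trans hBX, h2.trans hBX, h3.trans hBX, h4.trans hBX, h5.trans (mul_le_mul_of_nonneg_right h hd)⟩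

theorem UP_measG (B X : ℝ) : MeasurableSet (UP B X) := by
  refine IsClosed.measurableSet ?_
  have e : UP B X = {f : Fr | |f.1.1| ≤ B * X} ∩ ({f : Fr | |f.1.2| ≤ B * X} ∩ ({f : Fr | |f.2.1| ≤ B * X} ∩ ({f : Fr | |f.2.2| ≤ B * X} ∩
      {f : Fr | X ^ 2 ≤ B * df f}))) := by
    ext f
    simp only [UP, mem_setOf_eq, mem_inter_iff]
  rw [e]
  refine (isClosed_le (by fun_prop) continuous_const).inter ((isClosed_le (by fun_prop) continuous_const).inter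
    ((isClosed_le (by fun_prop) continuous_const).inter ((isClosed_le (by fun_prop) continuous_const).inter (isClosed_le continuous_const ?_))))
  unfold df
  fun_prop

theorem OS_measG (s B X : ℝ) : MeasurableSet (OS s B X) := by
  refine IsClosed.measurableSet ?_
  have e : OS s B X = {A : R3 | X ≤ B * A.1} ∩ ({A : R3 | A.1 ≤ B * X} ∩ ({A : R3 | |A.2.1| ≤ B * X} ∩ ({A : R3 | |A.2.2| ≤ B * X} ∩
      {A : R3 | X ^ 2 ≤ B * (s * (A.2.1 ^ 2 - A.2.2 * A.1))}))) := by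
    ext f
    simp only [OS, mem_setOf_eq, mem_inter_iff]
  rw [e]
  exact (isClosed_le continuous_const (by fun_prop)).inter ((isClosed_le (by fun_prop) continuous_const).inter
    ((isClosed_le (by fun_prop) continuous_const).inter ((isClosed_le (by fun_prop) continuous_const).inter (isClosed_le continuous_const (by fun_prop)))))

theorem OZ_measG (B e X : ℝ) : MeasurableSet (OZ B e X) := by
  refine IsClosed.measurableSet ?_
  have e' : OZ B e X = {A : R3 | X ≤ B * A.1} ∩ ({A : R3 | A.1 ≤ B * X} ∩ ({A : R3 | |A.2.1| ≤ B * X} ∩ ({A : R3 | |A.2.2| ≤ B * X} ∩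
      {A : R3 | |A.2.1 ^ 2 - A.2.2 * A.1| ≤ e * A.1 ^ 2}))) := by
    ext f
    simp only [OZ, mem_setOf_eq, mem_inter_iff]
  rw [e']
  exact (isClosed_le continuous_const (by fun_prop)).inter ((isClosed_le (by fun_prop) continuous_const).inter
    ((isClosed_le (by fun_prop) continuous_const).inter ((isClosed_le (by fun_prop) continuous_const).inter (isClosed_le (by fun_prop) (by fun_prop)))))

theorem box_volG {O : Set R3} {B X : ℝ} (hB : 1 ≤ B) (hX : 0 < X) (h : ∀ A ∈ O, X ≤ B * A.1 ∧ A.1 ≤ B * X ∧ |A.2.1| ≤ B * X ∧ |A.2.2| ≤ B * X) :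
    volume O ≤ ENNReal.ofReal ((2 * (B * X)) ^ 3) := by
  rw [← cb_vol (0 : R3) (by positivity : 0 ≤ B * X)]
  refine measure_mono fun A hA => ?_
  obtain ⟨h1, h2, h3, h4⟩ := h A hA
  rw [mem_cb]
  have hA0 : 0 ≤ A.1 := by
    by_contra hcon
    push Not at hcon
    have := mul_neg_of_pos_of_neg (by linarith : 0 < B) hcon
    linarith
  simp only [Prod.fst_zero, Prod.snd_zero, sub_zero]
  refine ⟨?_, h3, h4⟩
  rw [abs_of_nonneg hA0]
  exact h2

theorem fh_measG {h : ℝ × ℝ → ℝ} (hc : Continuous h) (S : Finset (ℤ × ℤ)) :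
    Measurable (fun f : Fr => ENNReal.ofReal (m20 S (fun k => ee (h (vf f k))))) := by
  refine (Continuous.measurable ?_).ennreal_ofReal
  refine m20_cont_coef S (fun (f : Fr) k => ee (h (vf f k))) fun k _ => ee_cont.comp (hc.comp ?_)
  unfold vf
  fun_prop

theorem fam_IHG {P₀ : (ℝ × ℝ → ℝ) → Prop} {c₁ B₀ : ℝ} (hP : ∀ h, P₀ h → Hom c₁ B₀ h) : Fam (fun i : {h : ℝ × ℝ → ℝ // P₀ h} => IH i.1) where
  empty := fun i B X => IH_empty i.1 B X
  mono := by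
    intro i B B' X S hX h
    show IH i.1 B X S ≤ IH i.1 B' X S
    unfold IH
    rcases hX.lt_or_eq with hX | hX
    · exact lintegral_mono_set (UP_monoG hX h)
    · refine lintegral_mono_set ?_
      rintro f ⟨h1, h2, h3, h4, h5⟩
      rw [← hX, mul_zero] at h1 h2 h3 h4
      have e1 : f.1.1 = 0 := abs_nonpos_iff.1 h1
      have e2 : f.1.2 = 0 := abs_nonpos_iff.1 h2
      have e3 : f.2.1 = 0 := abs_nonpos_iff.1 h3
      have e4 : f.2.2 = 0 := abs_nonpos_iff.1 h4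
      refine ⟨by rw [e1, ← hX]; simp, by rw [e2, ← hX]; simp, by rw [e3, ← hX]; simp, by rw [e4, ← hX]; simp, ?_⟩
      unfold df
      rw [e1, e2, ← hX]
      simp
  arcs := by
    intro i B X H lam S N hH hl hS hN
    show IH i.1 B X S ≤ ENNReal.ofReal ((N : ℝ) ^ 19) * ∑ r ∈ Finset.range N, IH i.1 B X (arc 0 S N r)
    have hc := (hP i.1 i.2).cont
    unfold IH
    rw [← lintegral_finsetSum _ (fun r _ => fh_measG hc _), ← lintegral_const_mul]
    · refine lintegral_mono fun f => ?_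
      rw [← ENNReal.ofReal_sum_of_nonneg (fun r _ => m20_nonneg _ _), ← ENNReal.ofReal_mul (by positivity)]
      exact ENNReal.ofReal_le_ofReal (Pool.Agent.Helper78.QL.m20_arcs hH hl hS hN _)
    · exact Finset.measurable_sum _ fun r _ => fh_measG hc _

end Pool.Agent.Helper92.AG
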