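import Pool.Agent.Helper3.AG.StepG
import Pool.Agent.Helper36.AG.Loc1
import Pool.Agent.Helper65.AG.E2d
import Pool.Agent.Helper86.AG.V1
import Pool.Agent.Helper86.AG.N
import Pool.Agent.Helper86.AG.Grid
import Pool.Agent.Helper24.AG.V2
import Pool.Agent.Helper3.AC.Main
import Pool.Agent.Helper92.LA.C2
import Pool.Agent.Helper75.TW.Last

/-!
# AG-Last (block W): the blocks, the iteration and the tenth moment for the class `HG`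
-/

open MeasureTheory Real Set Filter Topology

set_option autoImplicit false

namespace Pool.Agent.Helper92.AG

open Pool.Agent.Helper22.AE
open Pool.Agent.Helper22.AC (ga)
open Pool.Agent.Helper92.GC (dt tp Tq uu tt arc dd m6)
open Pool.Agent.Helper92.LA (HL WL lcnt)
open Pool.Agent.Helper22.LP (fdet wr)
open Pool.Agent.Helper75.TW (m20 J20 MomF)
open Pool.Agent.Helper60.LT (Fr Tf xf yf df vf fr sl Cv Hom)
open Pool.Agent.Helper60.QL (R3 OM lf ln Cone Dec20)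
open Pool.Agent.Helper3.AC

theorem blocks_all {lam c₁ B₀ : ℝ} (hl : 1 ≤ lam) (hc : 0 < c₁) (hB₀ : 1 ≤ B₀) : Blocks lam c₁ B₀ where
  loc1 := by
    intro B κ₀ hB hκ
    obtain ⟨C, w₀, hC, hw, hw1, h1⟩ := loc1 (lam := lam) hc hB₀ hB hκ hl
    refine ⟨C, w₀, hC, hw, hw1, fun h hh s hs θ hθ X t₀ hX => ?_⟩
    intro H w δ A A' S hH hw' hww hA hA' h11 h12 h13 hS hd
    exact h1 h hh s hs θ hθ X H w δ t₀ A A' S hX hH hw' hww hA hA' h11 h12 h13 hS hd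
  loc2 := by
    intro B c r Y e hB hcc hr hr1 hY he heY
    obtain ⟨C, w₀, hC, hw, hw1, h1⟩ := loc2 (lam := lam) hc hB₀ hB hcc hr hr1 hY he heY hl
    refine ⟨C, w₀, hC, hw, hw1, fun h hh z σ hg y hy X t₀ hX => ?_⟩
    intro H w δ A A' S hH hw' hww hA hA' h11 h12 h13 hS hd
    exact h1 h hh z σ hg y hy X H w δ t₀ A A' S hX hH hw' hww hA hA' h11 h12 h13 hS hd
  up1 := fun _ _ hB hκ => up1 hc hB₀ hB hκ
  lo1 := fun _ _ hB hκ => lo1 hc hB₀ hB hκ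
  up2 := fun _ _ _ _ _ _ hB hcc hr hr1 hY he heY hκ hκe => up2 hc hB₀ hB hcc hr hr1 hY he heY hκ hκe
  lo2 := fun _ _ _ _ _ hB hcc hr hr1 hY he heY => lo2 hc hB₀ hB hcc hr hr1 hY he heY
  shr := fun _ _ _ _ _ hh hB hX ht hS => IH_shr hh hB hX ht hS
  int := fun _ hF => int_Rt hF
  mes1 := fun _ hh t₀ S => qf_mes hh t₀ S
  mes2 := fun _ hh _ _ _ hr hσ t₀ S => qz_mes hh hr hσ t₀ S
  near1 := fun _ hB => OS_near hB
  near2 := fun _ _ hB he he1 => OZ_near hB he he1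
  grid := grid hc hB₀

theorem iterG {η lam c₁ B₀ B : ℝ} (hη : 0 < η) (hl : 1 ≤ lam) (hc : 0 < c₁) (hB₀ : 1 ≤ B₀) (hB : 1 ≤ B)
    (hd : ∀ ε : ℝ, 0 < ε → ∃ M : ℕ, 2 ≤ M ∧ ∃ C₀ : ℝ, 1 ≤ C₀ ∧ Dec20 ε lam M C₀) :
    ∃ (M : ℕ) (C B' : ℝ), 2 ≤ M ∧ 1 ≤ C ∧ B ≤ B' ∧ ∀ h : ℝ × ℝ → ℝ, HG c₁ B₀ h → ∀ (X H : ℝ) (S : Finset (ℤ × ℤ)), 1 ≤ X → 1 ≤ H → H ≤ X → Cone H lam S →
      ∃ m : ℕ, X * H ≤ C * X ^ η * (M : ℝ) ^ (4 * m) ∧ (M : ℝ) ^ (4 * m) ≤ X * H ∧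
        IH h B X S ^ (1 / 10 : ℝ) ≤ ENNReal.ofReal (C * X ^ η) * ∑ r ∈ Finset.range (M ^ m), (IH h B' X (arc 0 S (M ^ m) r) + 1) ^ (1 / 10 : ℝ) :=
  iterG_of hη hl hB hd (blocks_all hl hc hB₀)

theorem mom_cptG {c₁ B₀ : ℝ} (hc : 0 < c₁) (hB₀ : 1 ≤ B₀) : MomF J20 Pool.Agent.Helper60.QL.F20q (HG c₁ B₀) 0 (1 / 3) := by
  refine cpt_of_cone (P₀ := HG c₁ B₀) (fun _ hh => hh.hom) fun ε B hε hB => ?_
  refine mom_cone_of (P₀ := HG c₁ B₀) hε hB (fun η hη => iterG hη (by norm_num) hc hB₀ hB (Pool.Agent.Helper60.QL.dec20_all (by norm_num))) ?_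
    Pool.Agent.Helper60.QL.m20_m6
  intro ε' B' hε' hB'
  obtain ⟨C, hC, h6⟩ := Pool.Agent.Helper60.AC.m6_frames (ε := ε') (lam := 2) hε' (by norm_num) hc hB₀ hB'
  exact ⟨C, hC, fun h hh => h6 h hh.hom⟩

end Pool.Agent.Helper92.AG
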