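import Pool.Agent.Helper3.AG.Win
import Pool.Agent.Helper3.AC.L6

/-!
# AG-PStep: the step for one chart: a family in three coordinates and one parameter
-/

open MeasureTheory Real Set Filter Topology

set_option autoImplicit false

namespace Pool.Agent.Helper92.AG

open Pool.Agent.Helper22.AE
open Pool.Agent.Helper92.GC (dt tp Tq uu tt arc dd)
open Pool.Agent.Helper60.QL (R3 OM lf ln cb Cone Dec20 boxdec)
open Pool.Agent.Helper3.QL (cb_ball avg_low avg_up cb_mono mink cb_vol)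
open Pool.Agent.Helper3.AC (meas_ball2)

theorem pstep {ε lam C₀ : ℝ} {M : ℕ} (hl : 1 ≤ lam) (hM : 2 ≤ M) (hC₀ : 1 ≤ C₀) (hd : Dec20 ε lam M C₀) (n : ℕ) {C₃ w₀ : ℝ}
    (hC₃ : 1 ≤ C₃) (hw₀1 : w₀ ≤ 1) :
    ∃ K E : ℝ, 1 ≤ K ∧ 1 ≤ E ∧ ∀ (Q : ℝ → Finset (ℤ × ℤ) → R3 → ℝ) (φ : ℝ → R3 → ℝ → ℝ) (Θ : Set ℝ) (O₁ O₂ O₃ : Set R3)
      (V D X H κ w t₀ : ℝ) (m : ℕ) (S : Finset (ℤ × ℤ)),
      MeasurableSet Θ → MeasurableSet O₁ → MeasurableSet O₂ → MeasurableSet O₃ →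
      volume Θ ≤ ENNReal.ofReal V → 0 ≤ V → volume O₂ ≤ ENNReal.ofReal D → 0 ≤ D →
      (∀ S : Finset (ℤ × ℤ), Measurable (fun q : ℝ × R3 => Q q.1 S q.2)) →
      (∀ θ ∈ Θ, LocP (Q θ) (φ θ) O₃ X lam C₃ w₀ t₀) → 0 < X → 0 < H → 4 ≤ κ → 0 < w → w ≤ w₀ → |t₀| ≤ 3 →
      (∀ A ∈ O₁, Metric.closedBall A (K * (M : ℝ) ^ (4 * m) / H) ⊆ O₂) →
      (∀ z ∈ O₂, Metric.closedBall z (κ * (K * (M : ℝ) ^ (4 * m) / H)) ⊆ O₃) →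
      (∀ k ∈ S, H / lam ≤ uu 0 k ∧ uu 0 k ≤ lam * H ∧ |tt 0 k - t₀| ≤ w) → κ * (K * (M : ℝ) ^ (4 * m)) * w ^ 5 ≤ 1 →
      (∫⁻ θ in Θ, ∫⁻ A in O₁, ENNReal.ofReal (Q θ S A)) ^ (1 / 10 : ℝ) ≤ ENNReal.ofReal (K * (M : ℝ) ^ (ε * (m : ℝ))) *
        ∑ j ∈ Finset.range (M ^ m), (ENNReal.ofReal (κ ^ 3) * (∫⁻ θ in Θ, ∫⁻ A in O₃, ENNReal.ofReal (Q θ (arc 0 S (M ^ m) j) A)) +
          ENNReal.ofReal (V * (E * D * (S.card : ℝ) ^ 20 * κ⁻¹ ^ n))) ^ (1 / 10 : ℝ) := by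
  obtain ⟨K, E, hK, hE, hwin⟩ := winP hl hM hC₀ hd n hC₃ hw₀1
  refine ⟨K, E, hK, hE, ?_⟩
  intro Q φ Θ O₁ O₂ O₃ V D X H κ w t₀ m S hΘ hO₁ hO₂ hO₃ hV hV0 hD hD0 hQm hloc hX hH hκ hw hww ht₀ hb1 hb2 hS hcond
  have hM1 : (1 : ℝ) < M := by
    have : 1 < M := by omega
    exact_mod_cast this
  have hM0 : (0 : ℝ) < M := by linarith
  have hK0 : 0 < K := by linarith
  have hκ0 : 0 < κ := by linarith
  obtain ⟨ρ, hρ⟩ : ∃ ρ : ℝ, ρ = K * (M : ℝ) ^ (4 * m) / H := ⟨_, rfl⟩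
  rw [← hρ] at hb1 hb2
  have hρ0 : 0 < ρ := by rw [hρ]; positivity
  have hρH : K * (M : ℝ) ^ (4 * m) = H * ρ := by rw [hρ]; field_simp
  have hcond' : κ * ρ * H * w ^ 5 ≤ 1 := by
    calc κ * ρ * H * w ^ 5 = κ * (H * ρ) * w ^ 5 := by ring
      _ ≤ 1 := by rw [← hρH]; exact hcond
  -- the functions
  obtain ⟨F, hF⟩ : ∃ F : Finset (ℤ × ℤ) → ℝ × R3 → ENNReal, F = fun S'' q => ENNReal.ofReal (Q q.1 S'' q.2) := ⟨_, rfl⟩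
  have hFm : ∀ S'', Measurable (F S'') := by
    intro S''
    rw [hF]
    exact (hQm S'').ennreal_ofReal
  have hFs : ∀ S'' (θ : ℝ), Measurable (fun A => F S'' (θ, A)) := fun S'' θ => (hFm S'').comp (measurable_const.prodMk measurable_id)
  obtain ⟨Sj, hSj⟩ : ∃ Sj : ℕ → Finset (ℤ × ℤ), Sj = fun j => arc 0 S (M ^ m) j := ⟨_, rfl⟩
  obtain ⟨q1, hq1⟩ : ∃ q1 : ℝ, q1 = (S.card : ℝ) ^ 20 := ⟨_, rfl⟩
  have hq10 : 0 ≤ q1 := by rw [hq1]; exact pow_nonneg (Nat.cast_nonneg _) 20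
  obtain ⟨tl, htl⟩ : ∃ tl : ℝ, tl = E * ρ ^ 3 * q1 * κ⁻¹ ^ n := ⟨_, rfl⟩
  have hE0 : 0 < E := by linarith
  have htl0 : 0 ≤ tl := by rw [htl]; positivity
  have hVol : ∀ (Y : ℝ), 0 ≤ Y → ∀ z : R3, volume (Metric.closedBall z Y) = ENNReal.ofReal ((2 * Y) ^ 3) := by
    intro Y hY z
    rw [← cb_ball, cb_vol z hY]
  -- averaging
  have a1 : ∀ θ : ℝ, ENNReal.ofReal ((2 * ρ) ^ 3) * (∫⁻ A in O₁, F S (θ, A)) ≤ ∫⁻ z in O₂, ∫⁻ A in Metric.closedBall z ρ, F S (θ, A) :=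
    fun θ => avg_low volume (hFs S θ) hO₁ (hVol ρ hρ0.le) hb1
  have a2 : ∀ (j : ℕ) (θ : ℝ), ∫⁻ z in O₂, ∫⁻ A in Metric.closedBall z (κ * ρ), F (Sj j) (θ, A) ≤
      ENNReal.ofReal ((2 * (κ * ρ)) ^ 3) * ∫⁻ A in O₃, F (Sj j) (θ, A) :=
    fun j θ => avg_up volume (hFs _ θ) hO₃ (hVol (κ * ρ) (by positivity)) hb2
  -- the window
  have hwz : ∀ θ ∈ Θ, ∀ z ∈ O₂, (∫⁻ A in Metric.closedBall z ρ, F S (θ, A)) ^ (1 / 10 : ℝ) ≤ ENNReal.ofReal (K * (M : ℝ) ^ (ε * (m : ℝ))) *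
      ∑ j ∈ Finset.range (M ^ m), ((∫⁻ A in Metric.closedBall z (κ * ρ), F (Sj j) (θ, A)) + ENNReal.ofReal tl) ^ (1 / 10 : ℝ) := by
    intro θ hθ z hz
    have := hwin (Q θ) (φ θ) O₃ m X H ρ κ w t₀ z S (hloc θ hθ) hX hH hρ0 hκ hw hww ht₀ (hb2 z hz) hS hcond' hρH.le
    rw [hF, hSj, htl, hq1]
    exact this
  obtain ⟨K', hK'⟩ : ∃ K' : ENNReal, K' = ENNReal.ofReal (K * (M : ℝ) ^ (ε * (m : ℝ))) := ⟨_, rfl⟩
  rw [← hK'] at hwz ⊢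
  obtain ⟨g, hg⟩ : ∃ g : ℕ → ℝ × R3 → ENNReal, g = fun j q => (∫⁻ A in Metric.closedBall q.2 (κ * ρ), F (Sj j) (q.1, A)) + ENNReal.ofReal tl := ⟨_, rfl⟩
  have hgm : ∀ j, Measurable (g j) := by
    intro j
    rw [hg]
    exact (meas_ball2 (hFm (Sj j)) (κ * ρ)).add_const _
  obtain ⟨μ, hμ⟩ : ∃ μ : Measure (ℝ × R3), μ = (volume.restrict Θ).prod (volume.restrict O₂) := ⟨_, rfl⟩
  have hprod : ∀ G : ℝ × R3 → ENNReal, Measurable G → ∫⁻ θ in Θ, ∫⁻ z in O₂, G (θ, z) = ∫⁻ q, G q ∂μ := by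
    intro G hG
    rw [hμ, lintegral_prod _ hG.aemeasurable]
  have hmink : (∫⁻ θ in Θ, ∫⁻ z in O₂, ∫⁻ A in Metric.closedBall z ρ, F S (θ, A)) ^ (1 / 10 : ℝ) ≤
      K' * ∑ j ∈ Finset.range (M ^ m), (∫⁻ q, g j q ∂μ) ^ (1 / 10 : ℝ) := by
    have h3 : Measurable (fun q : ℝ × R3 => (∑ j ∈ Finset.range (M ^ m), (g j q) ^ (1 / 10 : ℝ)) ^ (10 : ℝ)) :=
      (Finset.measurable_fun_sum _ fun j _ => (hgm j).pow_const _).pow_const _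
    have h1 : ∫⁻ θ in Θ, ∫⁻ z in O₂, ∫⁻ A in Metric.closedBall z ρ, F S (θ, A) ≤
        ∫⁻ θ in Θ, ∫⁻ z in O₂, K' ^ (10 : ℝ) * (∑ j ∈ Finset.range (M ^ m), (g j (θ, z)) ^ (1 / 10 : ℝ)) ^ (10 : ℝ) := by
      refine setLIntegral_mono' hΘ fun θ hθ => setLIntegral_mono' hO₂ fun z hz => ?_
      rw [← ENNReal.mul_rpow_of_nonneg _ _ (by norm_num : (0 : ℝ) ≤ 10)]
      have h2 := ENNReal.rpow_le_rpow (hwz θ hθ z hz) (by norm_num : (0 : ℝ) ≤ 10)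
      rw [← ENNReal.rpow_mul] at h2
      norm_num at h2
      rw [hg]
      norm_num
      exact h2
    have h4 := hprod (fun q => K' ^ (10 : ℝ) * (∑ j ∈ Finset.range (M ^ m), (g j q) ^ (1 / 10 : ℝ)) ^ (10 : ℝ)) (h3.const_mul _)
    rw [h4, lintegral_const_mul _ h3] at h1
    refine (ENNReal.rpow_le_rpow h1 (by norm_num : (0 : ℝ) ≤ 1 / 10)).trans ?_
    rw [ENNReal.mul_rpow_of_nonneg _ _ (by norm_num : (0 : ℝ) ≤ 1 / 10), ← ENNReal.rpow_mul]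
    have e : (10 : ℝ) * (1 / 10) = 1 := by norm_num
    rw [e, ENNReal.rpow_one]
    exact mul_le_mul' le_rfl (mink _ _ g fun j _ => hgm j)
  -- the integrals of the g j
  have hJm : ∀ (G : ℝ × R3 → ENNReal), Measurable G → ∀ O : Set R3, Measurable (fun θ => ∫⁻ A in O, G (θ, A)) := by
    intro G hG O
    exact hG.lintegral_prod_right' (ν := volume.restrict O)
  have hgi : ∀ j, ∫⁻ q, g j q ∂μ ≤ ENNReal.ofReal ((2 * (κ * ρ)) ^ 3) * (∫⁻ θ in Θ, ∫⁻ A in O₃, F (Sj j) (θ, A)) +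
      ENNReal.ofReal (V * (tl * D)) := by
    intro j
    rw [← hprod _ (hgm j)]
    have h1 : ∀ θ : ℝ, ∫⁻ z in O₂, g j (θ, z) ≤ ENNReal.ofReal ((2 * (κ * ρ)) ^ 3) * (∫⁻ A in O₃, F (Sj j) (θ, A)) +
        ENNReal.ofReal (tl * D) := by
      intro θ
      rw [hg]
      change ∫⁻ z in O₂, ((∫⁻ A in Metric.closedBall z (κ * ρ), F (Sj j) (θ, A)) + ENNReal.ofReal tl) ≤ _
      rw [lintegral_add_right _ measurable_const, lintegral_const, Measure.restrict_apply MeasurableSet.univ, univ_inter]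
      refine add_le_add (a2 j θ) ?_
      rw [ENNReal.ofReal_mul htl0]
      exact mul_le_mul' le_rfl hD
    refine (lintegral_mono h1).trans ?_
    rw [lintegral_add_right _ measurable_const, lintegral_const, Measure.restrict_apply MeasurableSet.univ, univ_inter,
      lintegral_const_mul _ (hJm _ (hFm (Sj j)) O₃)]
    refine add_le_add le_rfl ?_
    rw [mul_comm, ENNReal.ofReal_mul hV0]
    exact mul_le_mul' hV le_rfl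
  -- the constants
  obtain ⟨c, hc⟩ : ∃ c : ℝ, c = (2 * ρ) ^ 3 := ⟨_, rfl⟩
  have hc0 : 0 < c := by rw [hc]; positivity
  obtain ⟨U, hU⟩ : ∃ U : ENNReal, U = ∫⁻ θ in Θ, ∫⁻ A in O₁, F S (θ, A) := ⟨_, rfl⟩
  have b1 : ENNReal.ofReal c * U ≤ ∫⁻ θ in Θ, ∫⁻ z in O₂, ∫⁻ A in Metric.closedBall z ρ, F S (θ, A) := by
    rw [hU, ← lintegral_const_mul _ (hJm _ (hFm S) O₁), hc]
    exact lintegral_mono fun θ => a1 θ
  have b0 : U = ENNReal.ofReal c⁻¹ * (ENNReal.ofReal c * U) := by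
    rw [← mul_assoc, ← ENNReal.ofReal_mul (by positivity), inv_mul_cancel₀ hc0.ne', ENNReal.ofReal_one, one_mul]
  have b2 : ∀ j, ENNReal.ofReal c⁻¹ * ∫⁻ q, g j q ∂μ ≤ ENNReal.ofReal (κ ^ 3) * (∫⁻ θ in Θ, ∫⁻ A in O₃, F (Sj j) (θ, A)) +
      ENNReal.ofReal (V * (E * D * q1 * κ⁻¹ ^ n)) := by
    intro j
    refine (mul_le_mul' le_rfl (hgi j)).trans ?_
    rw [mul_add, ← mul_assoc, ← ENNReal.ofReal_mul (by positivity), ← ENNReal.ofReal_mul (by positivity)]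
    have e1 : c⁻¹ * (2 * (κ * ρ)) ^ 3 = κ ^ 3 := by
      rw [hc]
      field_simp
    have e2 : c⁻¹ * (V * (tl * D)) = (V * (E * D * q1 * κ⁻¹ ^ n)) / 8 := by
      rw [hc, htl]
      field_simp
      ring
    rw [e1, e2]
    refine add_le_add le_rfl (ENNReal.ofReal_le_ofReal ?_)
    have : 0 ≤ V * (E * D * q1 * κ⁻¹ ^ n) := by positivity
    linarith
  have hfin : U ^ (1 / 10 : ℝ) ≤ K' * ∑ j ∈ Finset.range (M ^ m), (ENNReal.ofReal (κ ^ 3) * (∫⁻ θ in Θ, ∫⁻ A in O₃, F (Sj j) (θ, A)) +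
      ENNReal.ofReal (V * (E * D * q1 * κ⁻¹ ^ n))) ^ (1 / 10 : ℝ) := by
    calc U ^ (1 / 10 : ℝ) = (ENNReal.ofReal c⁻¹ * (ENNReal.ofReal c * U)) ^ (1 / 10 : ℝ) := by rw [← b0]
      _ = ENNReal.ofReal c⁻¹ ^ (1 / 10 : ℝ) * (ENNReal.ofReal c * U) ^ (1 / 10 : ℝ) := ENNReal.mul_rpow_of_nonneg _ _ (by norm_num)
      _ ≤ ENNReal.ofReal c⁻¹ ^ (1 / 10 : ℝ) * (K' * ∑ j ∈ Finset.range (M ^ m), (∫⁻ q, g j q ∂μ) ^ (1 / 10 : ℝ)) :=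
          mul_le_mul' le_rfl ((ENNReal.rpow_le_rpow b1 (by norm_num)).trans hmink)
      _ = K' * ∑ j ∈ Finset.range (M ^ m), (ENNReal.ofReal c⁻¹ * ∫⁻ q, g j q ∂μ) ^ (1 / 10 : ℝ) := by
          simp only [ENNReal.mul_rpow_of_nonneg _ _ (by norm_num : (0 : ℝ) ≤ 1 / 10)]
          rw [← Finset.mul_sum]
          ring
      _ ≤ _ := mul_le_mul' le_rfl (Finset.sum_le_sum fun j _ => ENNReal.rpow_le_rpow (b2 j) (by norm_num))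
  rw [hU, hF, hSj, hq1] at hfin
  exact hfin

end Pool.Agent.Helper92.AG
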