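import Pool.Agent.Helper3.AG.Chart

/-!
# AG-Step (block W): the step for the class `HG` and the iteration, from the statements of the other blocks
-/

open MeasureTheory Real Set Filter Topology

set_option autoImplicit false

namespace Pool.Agent.Helper92.AG

open Pool.Agent.Helper22.AE
open Pool.Agent.Helper92.GC (dt tp Tq uu tt arc dd)
open Pool.Agent.Helper75.TW (m20 m20_nonneg m20_cont_coef)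
open Pool.Agent.Helper60.LT (Fr Tf xf yf df vf fr sl Cv Hom)
open Pool.Agent.Helper60.QL (R3 OM lf ln cb Cone Dec20)
open Pool.Agent.Helper3.QL (cb_ball cb_vol mem_cb)
open Pool.Agent.Helper78.QL (root_sum)
open Pool.Agent.Helper3.AC

/-- the statements of the blocks -/
structure Blocks (lam c₁ B₀ : ℝ) : Prop where
  loc1 : ∀ B κ₀ : ℝ, 1 ≤ B → 0 < κ₀ → ∃ C w₀ : ℝ, 1 ≤ C ∧ 0 < w₀ ∧ w₀ ≤ 1 ∧ Loc1 c₁ B₀ B κ₀ lam C w₀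
  loc2 : ∀ B c r Y e : ℝ, 1 ≤ B → 0 < c → 0 < r → r ≤ 1 → 1 ≤ Y → 0 < e → e * Y ^ 2 ≤ c * r / 2 →
    ∃ C w₀ : ℝ, 1 ≤ C ∧ 0 < w₀ ∧ w₀ ≤ 1 ∧ Loc2 c₁ B₀ B c r Y e lam C w₀
  up1 : ∀ B κ₀ : ℝ, 1 ≤ B → 0 < κ₀ → ∃ B' C : ℝ, B ≤ B' ∧ 1 ≤ C ∧ Up1 c₁ B₀ B B' κ₀ C
  lo1 : ∀ B κ₀ : ℝ, 1 ≤ B → 0 < κ₀ → ∃ B' C : ℝ, B ≤ B' ∧ 1 ≤ C ∧ Lo1 c₁ B₀ B B' κ₀ C
  up2 : ∀ B c r Y e κ₁ : ℝ, 1 ≤ B → 0 < c → 0 < r → r ≤ 1 → 4 * B ^ 3 ≤ Y → 0 < e → e * Y ^ 2 ≤ c * r / 2 → 0 < κ₁ → κ₁ * Y ^ 2 ≤ e →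
    ∃ B' C : ℝ, B ≤ B' ∧ 1 ≤ C ∧ Up2 c₁ B₀ B B' c r Y e κ₁ C
  lo2 : ∀ B c r Y e : ℝ, 1 ≤ B → 0 < c → 0 < r → r ≤ 1 → 1 ≤ Y → 0 < e → e * Y ^ 2 ≤ c * r / 2 →
    ∃ B' C : ℝ, B ≤ B' ∧ 1 ≤ C ∧ Lo2 c₁ B₀ B B' c r Y e C
  shr : ∀ (B X t₀ : ℝ) (h : ℝ × ℝ → ℝ) (S : Finset (ℤ × ℤ)), Hom c₁ B₀ h → 1 ≤ B → 0 < X → |t₀| ≤ 3 → (∀ k ∈ S, 0 < k.1) →
    IH h B X S ≤ ∫⁻ f in UP (4 * B) X, ENNReal.ofReal (mf h t₀ S f) ∧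
    ∫⁻ f in UP B X, ENNReal.ofReal (mf h t₀ S f) ≤ IH h (4 * B) X S
  int : ∀ F : Fr → ENNReal, Measurable F → ∫⁻ f, F f = ∫⁻ θ in Ioc (-π) π, Rt F θ
  mes1 : ∀ h : ℝ × ℝ → ℝ, HG c₁ B₀ h → ∀ (t₀ : ℝ) (S : Finset (ℤ × ℤ)), Measurable (fun q : ℝ × R3 => qf h q.1 t₀ S q.2)
  mes2 : ∀ h : ℝ × ℝ → ℝ, HG c₁ B₀ h → ∀ z r σ : ℝ, 0 < r → (σ = 1 ∨ σ = -1) → ∀ (t₀ : ℝ) (S : Finset (ℤ × ℤ)),
    Measurable (fun q : ℝ × R3 => qz h z r σ q.1 t₀ S q.2)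
  near1 : ∀ B : ℝ, 1 ≤ B → ∃ g : ℝ, 0 < g ∧ ∀ (s X : ℝ) (A A' : R3), (s = 1 ∨ s = -1) → 0 < X → A ∈ OS s B X → dist A A' ≤ g * X → A' ∈ OS s (2 * B) X
  near2 : ∀ B e : ℝ, 1 ≤ B → 0 < e → e ≤ 1 → ∃ g : ℝ, 0 < g ∧ ∀ (X : ℝ) (A A' : R3), 0 < X → A ∈ OZ B e X → dist A A' ≤ g * X →
    A' ∈ OZ (2 * B) (2 * e) X
  grid : ∃ c r κ₁ : ℝ, ∃ N : ℕ, 0 < c ∧ 0 < r ∧ r ≤ 1 ∧ 0 < κ₁ ∧
    ∀ h : ℝ × ℝ → ℝ, HG c₁ B₀ h → ∃ (J : Finset ℕ) (z σ : ℕ → ℝ), J.card ≤ N ∧ (∀ j ∈ J, Gd c r (z j) (σ j) h) ∧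
      ∀ θ ∈ Ioc (-π) π, |ka h θ| ≤ κ₁ → ∃ j ∈ J, |θ - z j| ≤ r

theorem biU_le {α : Type} [MeasurableSpace α] (μ : Measure α) (F : α → ENNReal) (J : Finset ℕ) (s : ℕ → Set α) :
    ∫⁻ a in ⋃ j ∈ J, s j, F a ∂μ ≤ ∑ j ∈ J, ∫⁻ a in s j, F a ∂μ := by
  classical
  induction J using Finset.induction_on with
  | empty => simp
  | insert i J hi ih =>
    rw [Finset.set_biUnion_insert, Finset.sum_insert hi]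
    exact (lintegral_union_le _ _ _).trans (add_le_add le_rfl ih)

theorem P1_meas {c₁ B₀ : ℝ} {h : ℝ × ℝ → ℝ} (hh : HG c₁ B₀ h) (s κ₀ : ℝ) : MeasurableSet (P1 h s κ₀) := by
  have e : P1 h s κ₀ = Ioc (-π) π ∩ {θ | κ₀ ≤ s * ka h θ} := by
    ext θ
    rfl
  rw [e]
  exact measurableSet_Ioc.inter (measurableSet_le measurable_const (hh.kd.continuous.measurable.const_mul s))

theorem P1_vol (h : ℝ × ℝ → ℝ) (s κ₀ : ℝ) : volume (P1 h s κ₀) ≤ ENNReal.ofReal 7 := by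
  have h1 : P1 h s κ₀ ⊆ Ioc (-π) π := fun θ hθ => hθ.1
  refine (measure_mono h1).trans ?_
  rw [Real.volume_Ioc]
  refine ENNReal.ofReal_le_ofReal ?_
  have := Real.pi_lt_d2
  linarith

/-- the radii of the balls -/
theorem rad_le {K g C κ X H Q : ℝ} (hK : 0 < K) (hg : 0 < g) (hH : 0 < H) (hκ : 1 ≤ κ) (hQ : 0 ≤ Q) (hC : K / g ≤ C) (h : C * κ * Q ≤ X * H) :
    K * Q / H ≤ g * X ∧ κ * (K * Q / H) ≤ g * X := by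
  have h2 : κ * (K * Q / H) ≤ g * X := by
    have e : κ * (K * Q / H) = κ * K * Q / H := by ring
    rw [e, div_le_iff₀ hH]
    have h3 : K ≤ C * g := by rwa [div_le_iff₀ hg] at hC
    calc κ * K * Q = K * (κ * Q) := by ring
      _ ≤ (C * g) * (κ * Q) := mul_le_mul_of_nonneg_right h3 (by positivity)
      _ = g * (C * κ * Q) := by ring
      _ ≤ g * (X * H) := mul_le_mul_of_nonneg_left h hg.le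
      _ = g * X * H := by ring
  refine ⟨le_trans ?_ h2, h2⟩
  have : 0 ≤ K * Q / H := by positivity
  exact le_mul_of_one_le_left this hκ

theorem cond_le {K C κ Q W : ℝ} {M m : ℕ} (hM : 2 ≤ M) (hκ : 0 ≤ κ) (hQ : 0 ≤ Q) (hC : 6 ^ 5 * K ≤ C) (h : C * κ * Q ≤ (M : ℝ) ^ (5 * m))
    (hW : W = 6 / (M : ℝ) ^ m) : κ * (K * Q) * W ^ 5 ≤ 1 := by
  have hM0 : (0 : ℝ) < M := by
    have : 0 < M := by omega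
    exact_mod_cast this
  have e : κ * (K * Q) * W ^ 5 = (6 ^ 5 * K) * (κ * Q) / (M : ℝ) ^ (5 * m) := by
    rw [hW, pow_mul' (M : ℝ) 5 m]
    field_simp
  rw [e, div_le_one (by positivity)]
  calc (6 ^ 5 * K) * (κ * Q) ≤ C * (κ * Q) := mul_le_mul_of_nonneg_right hC (by positivity)
    _ = C * κ * Q := by ring
    _ ≤ _ := h

end Pool.Agent.Helper92.AG
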