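import Pool.Agent.Helper3.AG.Step

/-!
# AG-StepG (block W): the step for the class `HG`
-/

open MeasureTheory Real Set Filter Topology

set_option autoImplicit false

namespace Pool.Agent.Helper92.AG

open Pool.Agent.Helper22.AE
open Pool.Agent.Helper92.GC (dt tp Tq uu tt arc dd)
open Pool.Agent.Helper75.TW (m20 m20_nonneg m20_cont_coef)
open Pool.Agent.Helper60.LT (Fr Tf xf yf df vf fr sl Cv Hom)
open Pool.Agent.Helper60.QL (R3 OM lf ln cb Cone Dec20)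
open Pool.Agent.Helper3.QL (cb_ball cb_vol mem_cb)
open Pool.Agent.Helper78.QL (root_sum)
open Pool.Agent.Helper3.AC

/-- the directions of chart 2 -/
def P2s (h : ℝ × ℝ → ℝ) (z r κ₀ : ℝ) : Set ℝ := {θ | |θ - z| ≤ r ∧ |ka h θ| ≤ κ₀}

/-- the upper bound of the moment by the charts -/
theorem IH_charts {lam c₁ B₀ B c r Y e κ₀ κ₁ Ba Ca Bb Cb X t₀ : ℝ} (hb : Blocks lam c₁ B₀) (hB : 1 ≤ B) (hκ01 : κ₀ ≤ κ₁)
    (hup1 : Up1 c₁ B₀ (4 * B) Ba κ₀ Ca) (hup2 : Up2 c₁ B₀ (4 * B) Bb c r Y e κ₀ Cb) {h : ℝ × ℝ → ℝ} (hh : HG c₁ B₀ h)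
    {J : Finset ℕ} {z σ : ℕ → ℝ} (hg : ∀ j ∈ J, Gd c r (z j) (σ j) h) (hcov : ∀ θ ∈ Ioc (-π) π, |ka h θ| ≤ κ₁ → ∃ j ∈ J, |θ - z j| ≤ r)
    (hX : 0 < X) (ht₀ : |t₀| ≤ 3) {S : Finset (ℤ × ℤ)} (hS : ∀ k ∈ S, 0 < k.1) :
    IH h B X S ≤ ENNReal.ofReal (Ca * X) * (∫⁻ θ in P1 h 1 κ₀, ∫⁻ A in OS 1 Ba X, ENNReal.ofReal (qf h θ t₀ S A)) +
      (ENNReal.ofReal (Ca * X) * (∫⁻ θ in P1 h (-1) κ₀, ∫⁻ A in OS (-1) Ba X, ENNReal.ofReal (qf h θ t₀ S A)) +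
      ∑ j ∈ J, ENNReal.ofReal (Cb * X) * ∫⁻ y in Icc (1 / Y) Y, ∫⁻ A in OZ Bb e X, ENNReal.ofReal (qz h (z j) r (σ j) y t₀ S A)) := by
  obtain ⟨F, hF⟩ : ∃ F : Fr → ENNReal, F = fun f => ENNReal.ofReal (mf h t₀ S f) := ⟨_, rfl⟩
  have hFm : Measurable F := by
    rw [hF]
    exact (mf_meas hh.hom t₀ S).ennreal_ofReal
  have hc1 : ∀ s : ℝ, (s = 1 ∨ s = -1) → ∫⁻ θ in P1 h s κ₀, Rt ((UP (4 * B) X).indicator F) θ ≤
      ENNReal.ofReal (Ca * X) * (∫⁻ θ in P1 h s κ₀, ∫⁻ A in OS s Ba X, ENNReal.ofReal (qf h θ t₀ S A)) := by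
    intro s hs
    rw [← lintegral_const_mul' _ _ ENNReal.ofReal_ne_top]
    refine setLIntegral_mono' (P1_meas hh s κ₀) fun θ hθ => ?_
    have := hup1 h hh s hs θ hθ.2 X F hX hFm
    rw [hF] at this ⊢
    exact this
  have hc2 : ∀ j ∈ J, ∫⁻ θ in P2s h (z j) r κ₀, Rt ((UP (4 * B) X).indicator F) θ ≤
      ENNReal.ofReal (Cb * X) * ∫⁻ y in Icc (1 / Y) Y, ∫⁻ A in OZ Bb e X, ENNReal.ofReal (qz h (z j) r (σ j) y t₀ S A) := by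
    intro j hj
    have := hup2 h hh (z j) (σ j) (hg j hj) X F hX hFm
    rw [hF] at this ⊢
    exact this
  have hsub : Ioc (-π) π ⊆ P1 h 1 κ₀ ∪ (P1 h (-1) κ₀ ∪ ⋃ j ∈ J, P2s h (z j) r κ₀) := by
    intro θ hθ
    by_cases h1 : κ₀ ≤ ka h θ
    · exact Or.inl ⟨hθ, by linarith⟩
    · by_cases h2 : κ₀ ≤ -ka h θ
      · exact Or.inr (Or.inl ⟨hθ, by linarith⟩)
      · push Not at h1 h2
        have h3 : |ka h θ| ≤ κ₀ := abs_le.2 ⟨by linarith, by linarith⟩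
        obtain ⟨j, hj, hj'⟩ := hcov θ hθ (h3.trans hκ01)
        exact Or.inr (Or.inr (mem_biUnion hj ⟨hj', h3⟩))
  calc IH h B X S ≤ ∫⁻ f in UP (4 * B) X, F f := by
        rw [hF]
        exact (hb.shr B X t₀ h S hh.hom hB hX ht₀ hS).1
    _ = ∫⁻ f, (UP (4 * B) X).indicator F f := (lintegral_indicator (UP_measG _ _) _).symm
    _ = ∫⁻ θ in Ioc (-π) π, Rt ((UP (4 * B) X).indicator F) θ := hb.int _ (hFm.indicator (UP_measG _ _))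
    _ ≤ ∫⁻ θ in P1 h 1 κ₀ ∪ (P1 h (-1) κ₀ ∪ ⋃ j ∈ J, P2s h (z j) r κ₀), Rt ((UP (4 * B) X).indicator F) θ := lintegral_mono_set hsub
    _ ≤ _ := by
        refine (lintegral_union_le _ _ _).trans (add_le_add (hc1 1 (Or.inl rfl)) ((lintegral_union_le _ _ _).trans
          (add_le_add (hc1 (-1) (Or.inr rfl)) ((biU_le _ _ _ _).trans (Finset.sum_le_sum hc2)))))

/-- back from chart 1 -/
theorem lo1_IH {lam c₁ B₀ B B' κ₀ C X t₀ s : ℝ} (hb : Blocks lam c₁ B₀) (hB' : 1 ≤ B') (hlo : Lo1 c₁ B₀ B B' κ₀ C) {h : ℝ × ℝ → ℝ} (hh : HG c₁ B₀ h)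
    (hs : s = 1 ∨ s = -1) (hX : 0 < X) (ht₀ : |t₀| ≤ 3) {S : Finset (ℤ × ℤ)} (hS : ∀ k ∈ S, 0 < k.1) :
    ENNReal.ofReal X * (∫⁻ θ in P1 h s κ₀, ∫⁻ A in OS s B X, ENNReal.ofReal (qf h θ t₀ S A)) ≤ ENNReal.ofReal C * IH h (4 * B') X S := by
  obtain ⟨F, hF⟩ : ∃ F : Fr → ENNReal, F = fun f => ENNReal.ofReal (mf h t₀ S f) := ⟨_, rfl⟩
  have hFm : Measurable F := by
    rw [hF]
    exact (mf_meas hh.hom t₀ S).ennreal_ofReal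
  calc ENNReal.ofReal X * (∫⁻ θ in P1 h s κ₀, ∫⁻ A in OS s B X, ENNReal.ofReal (qf h θ t₀ S A))
      = ∫⁻ θ in P1 h s κ₀, ENNReal.ofReal X * ∫⁻ A in OS s B X, ENNReal.ofReal (qf h θ t₀ S A) :=
        (lintegral_const_mul' _ _ ENNReal.ofReal_ne_top).symm
    _ ≤ ∫⁻ θ in P1 h s κ₀, ENNReal.ofReal C * Rt ((UP B' X).indicator F) θ := by
        refine setLIntegral_mono' (P1_meas hh s κ₀) fun θ hθ => ?_
        have := hlo h hh s hs θ hθ.2 X F hX hFm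
        rw [hF] at this ⊢
        exact this
    _ = ENNReal.ofReal C * ∫⁻ θ in P1 h s κ₀, Rt ((UP B' X).indicator F) θ := lintegral_const_mul' _ _ ENNReal.ofReal_ne_top
    _ ≤ ENNReal.ofReal C * ∫⁻ θ in Ioc (-π) π, Rt ((UP B' X).indicator F) θ :=
        mul_le_mul' le_rfl (lintegral_mono_set fun θ hθ => hθ.1)
    _ = ENNReal.ofReal C * ∫⁻ f in UP B' X, F f := by
        rw [← hb.int _ (hFm.indicator (UP_measG _ _)), lintegral_indicator (UP_measG _ _)]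
    _ ≤ ENNReal.ofReal C * IH h (4 * B') X S := by
        refine mul_le_mul' le_rfl ?_
        rw [hF]
        exact (hb.shr B' X t₀ h S hh.hom hB' hX ht₀ hS).2

/-- back from chart 2 -/
theorem lo2_IH {lam c₁ B₀ B B' c r Y e C X t₀ z σ : ℝ} (hb : Blocks lam c₁ B₀) (hB' : 1 ≤ B') (hlo : Lo2 c₁ B₀ B B' c r Y e C) {h : ℝ × ℝ → ℝ} (hh : HG c₁ B₀ h)
    (hg : Gd c r z σ h) (hX : 0 < X) (ht₀ : |t₀| ≤ 3) {S : Finset (ℤ × ℤ)} (hS : ∀ k ∈ S, 0 < k.1) :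
    ENNReal.ofReal X * (∫⁻ y in Icc (1 / Y) Y, ∫⁻ A in OZ B e X, ENNReal.ofReal (qz h z r σ y t₀ S A)) ≤ ENNReal.ofReal C * IH h (4 * B') X S := by
  obtain ⟨F, hF⟩ : ∃ F : Fr → ENNReal, F = fun f => ENNReal.ofReal (mf h t₀ S f) := ⟨_, rfl⟩
  have hFm : Measurable F := by
    rw [hF]
    exact (mf_meas hh.hom t₀ S).ennreal_ofReal
  have h1 := hlo h hh z σ hg X F hX hFm
  rw [hF] at h1
  exact h1.trans (mul_le_mul' le_rfl (hb.shr B' X t₀ h S hh.hom hB' hX ht₀ hS).2)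

theorem stepG {ε lam c₁ B₀ B C₀ : ℝ} {M : ℕ} (hl : 1 ≤ lam) (hB : 1 ≤ B) (hM : 2 ≤ M) (hC₀ : 1 ≤ C₀) (hd : Dec20 ε lam M C₀) (n : ℕ)
    (hb : Blocks lam c₁ B₀) :
    ∃ C B' E : ℝ, ∃ m₀ : ℕ, 1 ≤ C ∧ B ≤ B' ∧ 1 ≤ E ∧ StepAt (fun i : {h : ℝ × ℝ → ℝ // HG c₁ B₀ h} => IH i.1) ε lam M n B C B' E m₀ := by
  obtain ⟨c, r, κ₁, N, hc, hr, hr1, hκ₁, hgrid⟩ := hb.grid
  have hB₄ : (1 : ℝ) ≤ 4 * B := by linarith
  obtain ⟨Y, hY⟩ : ∃ Y : ℝ, Y = 4 * (4 * B) ^ 3 := ⟨_, rfl⟩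
  have hY1 : 1 ≤ Y := by
    rw [hY]
    have : (1 : ℝ) ≤ (4 * B) ^ 3 := one_le_pow₀ hB₄
    linarith
  have hY0 : 0 < Y := by linarith
  obtain ⟨e, he⟩ : ∃ e : ℝ, e = min (1 / 4) (c * r / (8 * Y ^ 2)) := ⟨_, rfl⟩
  have he0 : 0 < e := by rw [he]; positivity
  have he4 : e ≤ 1 / 4 := by rw [he]; exact min_le_left _ _
  have heY : 2 * (2 * e) * Y ^ 2 ≤ c * r / 2 := by
    have h1 : e ≤ c * r / (8 * Y ^ 2) := by rw [he]; exact min_le_right _ _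
    rw [le_div_iff₀ (by positivity)] at h1
    linarith
  have heY1 : e * Y ^ 2 ≤ c * r / 2 := by
    have : 0 < e * Y ^ 2 := by positivity
    linarith
  obtain ⟨κ₀, hκ₀⟩ : ∃ κ₀ : ℝ, κ₀ = min κ₁ (e / Y ^ 2) := ⟨_, rfl⟩
  have hκ₀0 : 0 < κ₀ := by rw [hκ₀]; positivity
  have hκ01 : κ₀ ≤ κ₁ := by rw [hκ₀]; exact min_le_left _ _
  have hκe : κ₀ * Y ^ 2 ≤ e := by
    have h1 : κ₀ ≤ e / Y ^ 2 := by rw [hκ₀]; exact min_le_right _ _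
    rwa [le_div_iff₀ (by positivity)] at h1
  -- chart 1
  obtain ⟨Ba, Ca, hBa, hCa, hup1⟩ := hb.up1 (4 * B) κ₀ hB₄ hκ₀0
  have hBa1 : 1 ≤ Ba := hB₄.trans hBa
  obtain ⟨g1, hg1, hnr1⟩ := hb.near1 Ba hBa1
  obtain ⟨g2, hg2, hnr2⟩ := hb.near1 (2 * Ba) (by linarith)
  obtain ⟨Ba', Da, hBa', hDa, hlo1⟩ := hb.lo1 (2 * (2 * Ba)) κ₀ (by linarith) hκ₀0
  obtain ⟨Xa, wa, hXa, hwa, hwa1, hloc1⟩ := hb.loc1 (2 * (2 * Ba)) κ₀ (by linarith) hκ₀0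
  obtain ⟨Ka, Ea, hKa, hEa, hps1⟩ := pstep hl hM hC₀ hd n hXa hwa1
  -- chart 2
  obtain ⟨Bb, Cb, hBb, hCb, hup2⟩ := hb.up2 (4 * B) c r Y e κ₀ hB₄ hc hr hr1 (by rw [hY]) he0 heY1 hκ₀0 hκe
  have hBb1 : 1 ≤ Bb := hB₄.trans hBb
  obtain ⟨g3, hg3, hnr3⟩ := hb.near2 Bb e hBb1 he0 (by linarith)
  obtain ⟨g4, hg4, hnr4⟩ := hb.near2 (2 * Bb) (2 * e) (by linarith) (by linarith) (by linarith)
  obtain ⟨Bb', Db, hBb', hDb, hlo2⟩ := hb.lo2 (2 * (2 * Bb)) c r Y (2 * (2 * e)) (by linarith) hc hr hr1 hY1 (by linarith) heY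
  obtain ⟨Xb, wb, hXb, hwb, hwb1, hloc2⟩ := hb.loc2 (2 * (2 * Bb)) c r Y (2 * (2 * e)) (by linarith) hc hr hr1 hY1 (by linarith) heY
  obtain ⟨Kb, Eb, hKb, hEb, hps2⟩ := pstep hl hM hC₀ hd n hXb hwb1
  have hM1 : (1 : ℝ) < M := by
    have : 1 < M := by omega
    exact_mod_cast this
  have hM0 : (0 : ℝ) < M := by linarith
  obtain ⟨m₀, hm₀⟩ := pow_unbounded_of_one_lt (6 / min wa wb) hM1
  have hKa0 : 0 < Ka := by linarith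
  have hKb0 : 0 < Kb := by linarith
  have hEa0 : 0 < Ea := by linarith
  have hEb0 : 0 < Eb := by linarith
  have hCa0 : 0 < Ca := by linarith
  have hCb0 : 0 < Cb := by linarith
  have hDa0 : 0 < Da := by linarith
  have hDb0 : 0 < Db := by linarith
  have hBa0 : 0 < Ba := by linarith
  have hBb0 : 0 < Bb := by linarith
  obtain ⟨C, hC⟩ : ∃ C : ℝ, C = 4 + Ka / g1 + Ka / g2 + Kb / g3 + Kb / g4 + 6 ^ 5 * Ka + 6 ^ 5 * Kb + 2 * (Ka * (Ca * Da)) + N * (Kb * (Cb * Db)) := ⟨_, rfl⟩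
  have p1 : 0 ≤ Ka / g1 := by positivity
  have p2 : 0 ≤ Ka / g2 := by positivity
  have p3 : 0 ≤ Kb / g3 := by positivity
  have p4 : 0 ≤ Kb / g4 := by positivity
  have p5 : 0 ≤ 6 ^ 5 * Ka := by positivity
  have p6 : 0 ≤ 6 ^ 5 * Kb := by positivity
  have p7 : 0 ≤ 2 * (Ka * (Ca * Da)) := by positivity
  have p8 : 0 ≤ N * (Kb * (Cb * Db)) := by positivity
  have hBm : B ≤ max (4 * Ba') (4 * Bb') := by
    refine le_trans ?_ (le_max_left _ _)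
    linarith
  obtain ⟨E, hE⟩ : ∃ E : ℝ, E = 8 * 7 * Ea * (2 * Ba) ^ 3 + 8 * Y * Eb * (2 * Bb) ^ 3 := ⟨_, rfl⟩
  have q1 : 1 ≤ 8 * 7 * Ea * (2 * Ba) ^ 3 := by
    have h1 : (1 : ℝ) ≤ (2 * Ba) ^ 3 := one_le_pow₀ (by linarith)
    have h2 : (1 : ℝ) ≤ 8 * 7 * Ea := by linarith
    exact one_le_mul_of_one_le_of_one_le h2 h1
  have q2 : 0 ≤ 8 * Y * Eb * (2 * Bb) ^ 3 := by positivity
  refine ⟨C, max (4 * Ba') (4 * Bb'), E, m₀, by rw [hC]; linarith, hBm, by rw [hE]; linarith, ?_⟩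
  rintro ⟨h, hh⟩ m m' r' X H κ S hm hmm hX hH hκ hcone hc1 hc2
  simp only
  have hX0 : 0 < X := by linarith
  have hH0 : 0 < H := by linarith
  have hC4 : 4 ≤ C := by rw [hC]; linarith
  have hκ4 : 4 ≤ κ := hC4.trans hκ
  have hκ0 : 0 < κ := by linarith
  have hκ1 : 1 ≤ κ := by linarith
  obtain ⟨Q, hQ⟩ : ∃ Q : ℝ, Q = (M : ℝ) ^ (4 * m') := ⟨_, rfl⟩
  have hQ0 : 0 ≤ Q := by rw [hQ]; positivity
  rw [← hQ] at hc1 hc2
  obtain ⟨S', hS'⟩ : ∃ S', S' = arc 0 S (M ^ m) r' := ⟨_, rfl⟩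
  rw [← hS']
  rcases S'.eq_empty_or_nonempty with hemp | hne
  · rw [hemp, IH_empty, ENNReal.zero_rpow_of_pos (by norm_num)]
    exact bot_le
  have hww : 6 / (M : ℝ) ^ m ≤ min wa wb := by
    have hw0 : 0 < min wa wb := lt_min hwa hwb
    rw [div_le_iff₀ (by positivity)]
    rw [div_lt_iff₀ hw0] at hm₀
    have h1 : (M : ℝ) ^ m₀ ≤ (M : ℝ) ^ m := pow_le_pow_right₀ hM1.le hm
    calc (6 : ℝ) ≤ (M : ℝ) ^ m₀ * min wa wb := hm₀.le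
      _ ≤ (M : ℝ) ^ m * min wa wb := mul_le_mul_of_nonneg_right h1 hw0.le
      _ = min wa wb * (M : ℝ) ^ m := mul_comm _ _
  obtain ⟨w, hw⟩ : ∃ w : ℝ, w = 6 / (M : ℝ) ^ m := ⟨_, rfl⟩
  have hw0 : 0 < w := by rw [hw]; positivity
  have hwwa : w ≤ wa := by rw [hw]; exact hww.trans (min_le_left _ _)
  have hwwb : w ≤ wb := by rw [hw]; exact hww.trans (min_le_right _ _)
  rw [hS'] at hne
  obtain ⟨t₀, ht₀, hSw, hpos⟩ := sector hl hH0 hcone hM ((hww.trans (min_le_left _ _)).trans hwa1) hne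
  rw [← hS'] at hSw hpos
  rw [← hw] at hSw
  have hsub : S' ⊆ S := by
    rw [hS']
    unfold arc
    exact Finset.filter_subset _ _
  obtain ⟨Sj, hSj⟩ : ∃ Sj : ℕ → Finset (ℤ × ℤ), Sj = fun j => arc 0 S' (M ^ m') j := ⟨_, rfl⟩
  have hSjs : ∀ j, Sj j ⊆ S' := by
    intro j
    rw [hSj]
    unfold arc
    exact Finset.filter_subset _ _
  have hposj : ∀ j, ∀ k ∈ Sj j, 0 < k.1 := fun j k hk => hpos k (hSjs j hk)
  obtain ⟨P, hP⟩ : ∃ P : ℝ, P = (M : ℝ) ^ (ε * (m' : ℝ)) := ⟨_, rfl⟩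
  have hP0 : 0 ≤ P := by rw [hP]; exact rpow_nonneg hM0.le _
  obtain ⟨kn, hkn⟩ : ∃ kn : ℝ, kn = κ⁻¹ ^ n := ⟨_, rfl⟩
  have hkn0 : 0 ≤ kn := by rw [hkn]; positivity
  obtain ⟨qq, hqq⟩ : ∃ qq : ℝ, qq = (S'.card : ℝ) ^ 20 := ⟨_, rfl⟩
  have hqq0 : 0 ≤ qq := by rw [hqq]; positivity
  have hqqS : qq ≤ (S.card : ℝ) ^ 20 := by
    rw [hqq]
    exact pow_le_pow_left₀ (Nat.cast_nonneg _) (by exact_mod_cast Finset.card_le_card hsub) 20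
  obtain ⟨J, z, σ, hJN, hGd, hcov⟩ := hgrid h hh
  -- the common bound
  obtain ⟨W, hW⟩ : ∃ W : ENNReal, W = ∑ j ∈ Finset.range (M ^ m'), (IH h (max (4 * Ba') (4 * Bb')) X (Sj j) +
    ENNReal.ofReal (E * X ^ 4 * (S.card : ℝ) ^ 20 * kn)) ^ (1 / 10 : ℝ) := ⟨_, rfl⟩
  have hIm : ∀ (B₅ : ℝ) (j : ℕ), B₅ ≤ max (4 * Ba') (4 * Bb') → IH h B₅ X (Sj j) ≤ IH h (max (4 * Ba') (4 * Bb')) X (Sj j) :=
    fun B₅ j hB₅ => (fam_IHG (P₀ := HG c₁ B₀) (fun _ hh => hh.hom)).mono ⟨h, hh⟩ B₅ _ X (Sj j) hX0.le hB₅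
  -- chart 1
  have s1 : ∀ s : ℝ, (s = 1 ∨ s = -1) →
      (ENNReal.ofReal (Ca * X) * (∫⁻ θ in P1 h s κ₀, ∫⁻ A in OS s Ba X, ENNReal.ofReal (qf h θ t₀ S' A))) ^ (1 / 10 : ℝ) ≤
        ENNReal.ofReal (Ka * (Ca * Da) * κ * P) * W := by
    intro s hs
    have hr1' := rad_le hKa0 hg1 hH0 hκ1 hQ0 (by rw [hC]; linarith) hc1
    have hr2' := rad_le hKa0 hg2 hH0 hκ1 hQ0 (by rw [hC]; linarith) hc1
    have hU := hps1 (fun θ S A => qf h θ t₀ S A) (fun θ A => hf h (fA h θ A)) (P1 h s κ₀) (OS s Ba X) (OS s (2 * Ba) X) (OS s (2 * (2 * Ba)) X)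
      7 ((2 * ((2 * Ba) * X)) ^ 3) X H κ w t₀ m' S' (P1_meas hh s κ₀) (OS_measG _ _ _) (OS_measG _ _ _) (OS_measG _ _ _)
      (P1_vol h s κ₀) (by norm_num) (box_volG (by linarith) hX0 fun A hA => ⟨hA.1, hA.2.1, hA.2.2.1, hA.2.2.2.1⟩) (by positivity)
      (fun S => hb.mes1 h hh t₀ S) (fun θ hθ => hloc1 h hh s hs θ hθ.2 X t₀ hX0) hX0 hH0 hκ4 hw0 hwwa ht₀
      (fun A hA A' hA' => hnr1 s X A A' hs hX0 hA (by
        rw [dist_comm]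
        refine (Metric.mem_closedBall.1 hA').trans ?_
        rw [← hQ]
        exact hr1'.1))
      (fun A hA A' hA' => hnr2 s X A A' hs hX0 hA (by
        rw [dist_comm]
        refine (Metric.mem_closedBall.1 hA').trans ?_
        rw [← hQ]
        exact hr2'.2)) hSw (by
        rw [← hQ]
        exact cond_le hM hκ0.le hQ0 (by rw [hC]; linarith) hc2 hw)
    have hlo : ∀ j ∈ Finset.range (M ^ m'), ENNReal.ofReal X * (∫⁻ θ in P1 h s κ₀, ∫⁻ A in OS s (2 * (2 * Ba)) X, ENNReal.ofReal (qf h θ t₀ (Sj j) A)) ≤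
        ENNReal.ofReal Da * IH h (4 * Ba') X (Sj j) :=
      fun j _ => lo1_IH hb (by linarith) hlo1 hh hs hX0 ht₀ (hposj j)
    rw [hSj] at hlo
    rw [← hP, ← hkn, ← hqq] at hU
    have := chart (N := M ^ m') (C₅ := Ca) (C₆ := Da) hKa hEa hCa hDa hκ1 hP0 hX0 (by norm_num : (0 : ℝ) ≤ 7) (by linarith : (1 : ℝ) ≤ 2 * Ba) hqq0 hkn0 hU hlo
    refine this.trans (mul_le_mul' le_rfl ?_)
    rw [hW]
    refine Finset.sum_le_sum fun j _ => ENNReal.rpow_le_rpow (add_le_add ?_ (ENNReal.ofReal_le_ofReal ?_)) (by norm_num)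
    · have := hIm (4 * Ba') j (le_max_left _ _)
      rw [hSj] at this ⊢
      exact this
    · have h1 : 8 * 7 * Ea * (2 * Ba) ^ 3 ≤ E := by rw [hE]; linarith
      calc 8 * 7 * Ea * (2 * Ba) ^ 3 * X ^ 4 * qq * kn ≤ E * X ^ 4 * qq * kn := by gcongr
        _ ≤ E * X ^ 4 * (S.card : ℝ) ^ 20 * kn := by
          have : 0 ≤ E := by rw [hE]; linarith
          gcongr
  -- chart 2
  have s2 : ∀ j ∈ J, (ENNReal.ofReal (Cb * X) * (∫⁻ y in Icc (1 / Y) Y, ∫⁻ A in OZ Bb e X, ENNReal.ofReal (qz h (z j) r (σ j) y t₀ S' A))) ^ (1 / 10 : ℝ) ≤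
        ENNReal.ofReal (Kb * (Cb * Db) * κ * P) * W := by
    intro i hi
    have hr1' := rad_le hKb0 hg3 hH0 hκ1 hQ0 (by rw [hC]; linarith) hc1
    have hr2' := rad_le hKb0 hg4 hH0 hκ1 hQ0 (by rw [hC]; linarith) hc1
    have hYv : volume (Icc (1 / Y) Y) ≤ ENNReal.ofReal Y := by
      rw [Real.volume_Icc]
      refine ENNReal.ofReal_le_ofReal ?_
      have : 0 < 1 / Y := by positivity
      linarith
    have hU := hps2 (fun y S A => qz h (z i) r (σ i) y t₀ S A) (fun y A => hf h (fZ h (z i) r (σ i) y A)) (Icc (1 / Y) Y) (OZ Bb e X)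
      (OZ (2 * Bb) (2 * e) X) (OZ (2 * (2 * Bb)) (2 * (2 * e)) X)
      Y ((2 * ((2 * Bb) * X)) ^ 3) X H κ w t₀ m' S' measurableSet_Icc (OZ_measG _ _ _) (OZ_measG _ _ _) (OZ_measG _ _ _)
      hYv hY0.le (box_volG (by linarith) hX0 fun A hA => ⟨hA.1, hA.2.1, hA.2.2.1, hA.2.2.2.1⟩) (by positivity)
      (fun S => hb.mes2 h hh (z i) r (σ i) hr (hGd i hi).1 t₀ S) (fun y hy => hloc2 h hh (z i) (σ i) (hGd i hi) y hy X t₀ hX0) hX0 hH0 hκ4 hw0 hwwb ht₀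
      (fun A hA A' hA' => hnr3 X A A' hX0 hA (by
        rw [dist_comm]
        refine (Metric.mem_closedBall.1 hA').trans ?_
        rw [← hQ]
        exact hr1'.1))
      (fun A hA A' hA' => hnr4 X A A' hX0 hA (by
        rw [dist_comm]
        refine (Metric.mem_closedBall.1 hA').trans ?_
        rw [← hQ]
        exact hr2'.2)) hSw (by
        rw [← hQ]
        exact cond_le hM hκ0.le hQ0 (by rw [hC]; linarith) hc2 hw)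
    have hlo : ∀ j ∈ Finset.range (M ^ m'), ENNReal.ofReal X * (∫⁻ y in Icc (1 / Y) Y, ∫⁻ A in OZ (2 * (2 * Bb)) (2 * (2 * e)) X,
        ENNReal.ofReal (qz h (z i) r (σ i) y t₀ (Sj j) A)) ≤ ENNReal.ofReal Db * IH h (4 * Bb') X (Sj j) :=
      fun j _ => lo2_IH hb (by linarith) hlo2 hh (hGd i hi) hX0 ht₀ (hposj j)
    rw [hSj] at hlo
    rw [← hP, ← hkn, ← hqq] at hU
    have := chart (N := M ^ m') (C₅ := Cb) (C₆ := Db) hKb hEb hCb hDb hκ1 hP0 hX0 hY0.le (by linarith : (1 : ℝ) ≤ 2 * Bb) hqq0 hkn0 hU hlo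
    refine this.trans (mul_le_mul' le_rfl ?_)
    rw [hW]
    refine Finset.sum_le_sum fun j _ => ENNReal.rpow_le_rpow (add_le_add ?_ (ENNReal.ofReal_le_ofReal ?_)) (by norm_num)
    · have := hIm (4 * Bb') j (le_max_right _ _)
      rw [hSj] at this ⊢
      exact this
    · have h1 : 8 * Y * Eb * (2 * Bb) ^ 3 ≤ E := by rw [hE]; linarith
      calc 8 * Y * Eb * (2 * Bb) ^ 3 * X ^ 4 * qq * kn ≤ E * X ^ 4 * qq * kn := by gcongr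
        _ ≤ E * X ^ 4 * (S.card : ℝ) ^ 20 * kn := by
          have : 0 ≤ E := by rw [hE]; linarith
          gcongr
  -- all charts
  have hall := IH_charts hb hB hκ01 hup1 hup2 hh hGd hcov hX0 ht₀ hpos
  have hroot : IH h B X S' ^ (1 / 10 : ℝ) ≤ ENNReal.ofReal (Ka * (Ca * Da) * κ * P) * W +
      (ENNReal.ofReal (Ka * (Ca * Da) * κ * P) * W + ∑ j ∈ J, ENNReal.ofReal (Kb * (Cb * Db) * κ * P) * W) := by
    refine (ENNReal.rpow_le_rpow hall (by norm_num)).trans ?_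
    refine (ENNReal.rpow_add_le_add_rpow _ _ (by norm_num) (by norm_num)).trans (add_le_add (s1 1 (Or.inl rfl)) ?_)
    refine (ENNReal.rpow_add_le_add_rpow _ _ (by norm_num) (by norm_num)).trans (add_le_add (s1 (-1) (Or.inr rfl)) ?_)
    exact (root_sum _ _).trans (Finset.sum_le_sum s2)
  rw [← hkn, ← hP]
  have hgoal : IH h B X S' ^ (1 / 10 : ℝ) ≤ ENNReal.ofReal (C * κ * P) * W := by
    refine hroot.trans ?_
    rw [Finset.sum_const, nsmul_eq_mul]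
    have h1 : (J.card : ENNReal) ≤ ENNReal.ofReal N := by
      rw [ENNReal.ofReal_natCast]
      exact_mod_cast hJN
    calc ENNReal.ofReal (Ka * (Ca * Da) * κ * P) * W + (ENNReal.ofReal (Ka * (Ca * Da) * κ * P) * W + (J.card : ENNReal) * (ENNReal.ofReal (Kb * (Cb * Db) * κ * P) * W))
        ≤ ENNReal.ofReal (Ka * (Ca * Da) * κ * P) * W + (ENNReal.ofReal (Ka * (Ca * Da) * κ * P) * W + ENNReal.ofReal N * (ENNReal.ofReal (Kb * (Cb * Db) * κ * P) * W)) := by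
          gcongr
      _ = ENNReal.ofReal (Ka * (Ca * Da) * κ * P + (Ka * (Ca * Da) * κ * P + N * (Kb * (Cb * Db) * κ * P))) * W := by
          rw [ENNReal.ofReal_add (by positivity) (by positivity), ENNReal.ofReal_add (by positivity) (by positivity),
            ENNReal.ofReal_mul (by positivity : (0 : ℝ) ≤ N)]
          ring
      _ ≤ ENNReal.ofReal (C * κ * P) * W := by
          refine mul_le_mul' (ENNReal.ofReal_le_ofReal ?_) le_rfl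
          have h2 : Ka * (Ca * Da) * κ * P + (Ka * (Ca * Da) * κ * P + N * (Kb * (Cb * Db) * κ * P)) =
              (2 * (Ka * (Ca * Da)) + N * (Kb * (Cb * Db))) * (κ * P) := by ring
          rw [h2, mul_assoc C]
          refine mul_le_mul_of_nonneg_right ?_ (by positivity)
          rw [hC]
          linarith
  rw [hW, hSj] at hgoal
  exact hgoal

theorem iterG_of {η lam c₁ B₀ B : ℝ} (hη : 0 < η) (hl : 1 ≤ lam) (hB : 1 ≤ B)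
    (hd : ∀ ε : ℝ, 0 < ε → ∃ M : ℕ, 2 ≤ M ∧ ∃ C₀ : ℝ, 1 ≤ C₀ ∧ Dec20 ε lam M C₀) (hb : Blocks lam c₁ B₀) :
    ∃ (M : ℕ) (C B' : ℝ), 2 ≤ M ∧ 1 ≤ C ∧ B ≤ B' ∧ ∀ h : ℝ × ℝ → ℝ, HG c₁ B₀ h → ∀ (X H : ℝ) (S : Finset (ℤ × ℤ)), 1 ≤ X → 1 ≤ H → H ≤ X → Cone H lam S →
      ∃ m : ℕ, X * H ≤ C * X ^ η * (M : ℝ) ^ (4 * m) ∧ (M : ℝ) ^ (4 * m) ≤ X * H ∧
        IH h B X S ^ (1 / 10 : ℝ) ≤ ENNReal.ofReal (C * X ^ η) * ∑ r ∈ Finset.range (M ^ m), (IH h B' X (arc 0 S (M ^ m) r) + 1) ^ (1 / 10 : ℝ) := by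
  obtain ⟨M, C, B', hM, hC, hB', hit⟩ := iter_core (fam_IHG (P₀ := HG c₁ B₀) (c₁ := c₁) (B₀ := B₀) fun _ hh => hh.hom) hη hl hB fun ε hε => by
    obtain ⟨M, hM, C₀, hC₀, hdec⟩ := hd ε hε
    exact ⟨M, hM, fun n B hB => stepG hl hB hM hC₀ hdec n hb⟩
  exact ⟨M, C, B', hM, hC, hB', fun h hh => hit ⟨h, hh⟩⟩

end Pool.Agent.Helper92.AG
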